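import Mathlib
import Pool.Agent.X202.Shrink

/-!
# If the functionals of an M-basis form a boundedly complete M-basis, the M-basis is shrinking
-/

open Filter Topology

namespace Pool.Agent.Results.MP_11f428_an.ShrinkingConverse

variable {𝕜 E : Type*} [RCLike 𝕜] [NormedAddCommGroup E] [NormedSpace 𝕜 E]

/-- M-basis of `E` with its associated sequence of functionals. -/
structure IsMBasis (x : ℕ → E) (f : ℕ → StrongDual 𝕜 E) : Prop where
  dense : Dense (Submodule.span 𝕜 (Set.range x) : Set E)
  biorth : ∀ i j, f i (x j) = if i = j then 1 else 0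
  total : ∀ y, (∀ i, f i y = 0) → y = 0

/-- The closed linear span `[f_n]` in the dual. -/
def closedSpan (f : ℕ → StrongDual 𝕜 E) : Set (StrongDual 𝕜 E) :=
  closure (Submodule.span 𝕜 (Set.range f))

/-- The M-basis is shrinking: the closed span of the associated functionals is the whole dual. -/
def IsShrinking (f : ℕ → StrongDual 𝕜 E) : Prop := closedSpan f = Set.univ

/-- The sequence `(f n)` is a boundedly complete M-basis of the Banach space `[f_n]` (whose
associated functionals are the evaluations at the vectors `x n`): whenever the sequence `g j` in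
`[f_n]` is bounded and `α n = lim_j g j (x n)` exists for every `n`, some `h` in `[f_n]` has
`h (x n) = α n` for all `n`. -/
def DualBoundedlyComplete (x : ℕ → E) (f : ℕ → StrongDual 𝕜 E) : Prop :=
  ∀ (g : ℕ → StrongDual 𝕜 E) (α : ℕ → 𝕜), (∀ j, g j ∈ closedSpan f) → (∃ C : ℝ, ∀ j, ‖g j‖ ≤ C) →
    (∀ n, Tendsto (fun j => g j (x n)) atTop (𝓝 (α n))) → ∃ h ∈ closedSpan f, ∀ n, h (x n) = α n

/-- **Main result.** Let `(x n)` be an M-basis of a Banach space with associated functionals
`(f n)`. If `(f n)` is a boundedly complete M-basis of its closed span, then `(x n)` is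
shrinking. -/
theorem result (𝕜 : Type*) [RCLike 𝕜] (E : Type*) [NormedAddCommGroup E] [NormedSpace 𝕜 E]
    [CompleteSpace E] (x : ℕ → E) (f : ℕ → StrongDual 𝕜 E) (h : IsMBasis x f)
    (hbc : DualBoundedlyComplete x f) : IsShrinking f := by
  have key := Pool.Agent.X202.Shrink.main 𝕜 E x f ⟨h.dense, h.biorth, h.total⟩ (by
    intro y α hC ht
    obtain ⟨g, hg1, hg2⟩ := hbc (fun j => (y j : Pool.Agent.X202.NDual 𝕜 E).toCLM) α
      (fun j => (y j).2) hC ht
    exact ⟨⟨Pool.Agent.X202.NDual.of g, hg1⟩, hg2⟩)
  unfold IsShrinking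
  rw [Set.eq_univ_iff_forall]
  intro φ
  have h1 : Pool.Agent.X202.NDual.of φ ∈ Pool.Agent.X202.Shrink.closedSpan f := by
    rw [key]; trivial
  exact h1

end Pool.Agent.Results.MP_11f428_an.ShrinkingConverse
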